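import Pool.Agent.Helper89.OC.St2

set_option autoImplicit false

namespace Pool.Agent.Helper8.OC

open Matrix ComplexConjugate Pool.Agent.Helper94.YF Pool.Agent.Helper94.YG Pool.Agent.Helper89.OS
  Pool.Agent.Helper89.OC

lemma zt_prim (p : ℕ) [NeZero p] : IsPrimitiveRoot (zt p) p :=
  Complex.isPrimitiveRoot_exp p (NeZero.ne p)

lemma unit_val_pos {p : ℕ} [NeZero p] (hp : p.Prime) (x : (ZMod (p ^ 1))ˣ) :
    0 < ((x : ZMod (p ^ 1))).val := by
  have : Fact (p ^ 1).Prime := ⟨by simpa using hp⟩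
  have h : (x : ZMod (p ^ 1)) ≠ 0 := x.ne_zero
  have h2 : ((x : ZMod (p ^ 1))).val ≠ 0 := by
    intro h3
    exact h ((ZMod.val_eq_zero _).1 h3)
  omega

lemma lin_ind {p : ℕ} [NeZero p] (hp : p.Prime) (f : (ZMod (p ^ 1))ˣ → ℤ)
    (h : ∑ x, (f x : ℂ) * zt p ^ ((x : (ZMod (p ^ 1))ˣ) : ZMod (p ^ 1)).val = 0) :
    ∀ x, f x = 0 := by
  classical
  intro x0
  have hprim := zt_prim p
  have hz : zt p ≠ 0 := hprim.ne_zero (NeZero.ne p)
  let P : Polynomial ℚ := ∑ x : (ZMod (p ^ 1))ˣ,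
    Polynomial.C (f x : ℚ) * Polynomial.X ^ (((x : ZMod (p ^ 1))).val - 1)
  have hP : Polynomial.aeval (zt p) P = 0 := by
    have h1 : zt p * Polynomial.aeval (zt p) P =
        ∑ x, (f x : ℂ) * zt p ^ ((x : (ZMod (p ^ 1))ˣ) : ZMod (p ^ 1)).val := by
      simp only [P, map_sum, map_mul, map_pow, Polynomial.aeval_C, Polynomial.aeval_X,
        Finset.mul_sum]
      refine Finset.sum_congr rfl fun x _ => ?_
      have hx := unit_val_pos hp x
      obtain ⟨k, hk⟩ : ∃ k, ((x : ZMod (p ^ 1))).val = k + 1 := ⟨_, (Nat.succ_pred_eq_of_pos hx).symm⟩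
      rw [hk, Nat.add_sub_cancel, pow_succ]
      simp only [map_intCast]
      ring
    rw [h] at h1
    exact (mul_eq_zero.1 h1).resolve_left hz
  have hmin : minpoly ℚ (zt p) ∣ P := minpoly.dvd ℚ _ hP
  have hdeg : (minpoly ℚ (zt p)).natDegree = p - 1 := by
    rw [← Polynomial.cyclotomic_eq_minpoly_rat hprim (NeZero.pos p), Polynomial.natDegree_cyclotomic,
      Nat.totient_prime hp]
  have hPz : P = 0 := by
    by_contra hne
    have h1 := Polynomial.natDegree_le_of_dvd hmin hne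
    rw [hdeg] at h1
    have h2 : P.natDegree ≤ p - 2 := by
      refine Polynomial.natDegree_sum_le_of_forall_le _ _ fun x _ => ?_
      refine (Polynomial.natDegree_C_mul_X_pow_le _ _).trans ?_
      have hx : ((x : ZMod (p ^ 1))).val < p :=
        lt_of_lt_of_eq (ZMod.val_lt (x : ZMod (p ^ 1))) (pow_one p)
      have h2 : ((x : ZMod (p ^ 1))).val ≤ p - 1 := by
        have := hp.two_le
        omega
      calc ((x : ZMod (p ^ 1))).val - 1 ≤ (p - 1) - 1 := Nat.sub_le_sub_right h2 1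
        _ = p - 2 := by omega
    have := hp.two_le
    omega
  have hc : P.coeff (((x0 : ZMod (p ^ 1))).val - 1) = (f x0 : ℚ) := by
    simp only [P, Polynomial.finsetSum_coeff, Polynomial.coeff_C_mul, Polynomial.coeff_X_pow]
    rw [Finset.sum_eq_single x0]
    · simp
    · intro y _ hy
      have h1 := unit_val_pos hp x0
      have h2 := unit_val_pos hp y
      have h3 : ((x0 : ZMod (p ^ 1))).val ≠ ((y : ZMod (p ^ 1))).val := by
        intro h4
        exact hy (Units.ext (ZMod.val_injective _ h4)).symm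
      rw [if_neg (by omega), mul_zero]
    · intro h; exact absurd (Finset.mem_univ _) h
  rw [hPz, Polynomial.coeff_zero] at hc
  exact_mod_cast hc.symm

lemma sum_units {p : ℕ} [NeZero p] (hp : p.Prime) (F : ZMod (p ^ 1) → ℂ) (h0 : F 0 = 0) :
    ∑ x, F x = ∑ u : (ZMod (p ^ 1))ˣ, F u := by
  classical
  have : Fact (p ^ 1).Prime := ⟨by simpa using hp⟩
  rw [← Finset.sum_filter_add_sum_filter_not Finset.univ (fun x : ZMod (p ^ 1) => x ≠ 0)]
  have h1 : ∑ x ∈ Finset.univ.filter (fun x : ZMod (p ^ 1) => ¬ x ≠ 0), F x = 0 := by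
    refine Finset.sum_eq_zero fun x hx => ?_
    have : x = 0 := by simpa using hx
    rw [this, h0]
  rw [h1, add_zero]
  symm
  refine Finset.sum_bij (fun (u : (ZMod (p ^ 1))ˣ) _ => (u : ZMod (p ^ 1))) ?_ ?_ ?_ ?_
  · intro u _
    simp
  · intro u _ v _ h
    exact Units.ext h
  · intro x hx
    have hx' : x ≠ 0 := by simpa using hx
    exact ⟨Units.mk0 x hx', Finset.mem_univ _, rfl⟩
  · intro u _
    rfl

lemma sum_zt {p : ℕ} [NeZero p] (hp : p.Prime) : ∑ x : ZMod (p ^ 1), zt p ^ x.val = 0 := by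
  have hprim := zt_prim p
  have h1 : ∑ x : ZMod (p ^ 1), zt p ^ x.val = ∑ i ∈ Finset.range (p ^ 1), zt p ^ i := by
    refine Finset.sum_bij (fun (x : ZMod (p ^ 1)) _ => x.val) ?_ ?_ ?_ ?_
    · intro x _
      exact Finset.mem_range.2 (ZMod.val_lt x)
    · intro x _ y _ h
      exact ZMod.val_injective _ h
    · intro i hi
      refine ⟨(i : ZMod (p ^ 1)), Finset.mem_univ _, ?_⟩
      exact ZMod.val_natCast_of_lt (Finset.mem_range.1 hi)
    · intro x _
      rfl
  rw [h1, pow_one]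
  exact hprim.geom_sum_eq_zero hp.one_lt

lemma zt_pow_mul {p : ℕ} [NeZero p] (a b : ZMod (p ^ 1)) :
    (zt p ^ a.val) ^ b.val = zt p ^ (a * b).val := by
  have hprim := zt_prim p
  rw [← pow_mul, ZMod.val_mul]
  have h1 : zt p ^ (p ^ 1) = 1 := by rw [pow_one]; exact hprim.pow_eq_one
  conv_lhs => rw [← Nat.mod_add_div (a.val * b.val) (p ^ 1)]
  rw [pow_add, pow_mul, h1, one_pow, mul_one]

/-- **OC MODULE MXX.** -/
theorem hMXX : StMXX := by
  classical
  intro I _ _ p _ X hGA nform k l hk hl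
  have hp := X.prime
  have hprim := zt_prim p
  -- exponents
  have hex : ∀ v, ∃ x : ZMod (p ^ 1), X.t v = zt p ^ x.val := by
    intro v
    have h1 : X.t v ^ p = 1 := by
      have := X.t_pow v
      rwa [pow_one] at this
    obtain ⟨i, hi, hi2⟩ := hprim.eq_pow_of_pow_eq_one h1
    refine ⟨(i : ZMod (p ^ 1)), ?_⟩
    rw [ZMod.val_natCast_of_lt (by rw [pow_one]; exact hi)]
    exact hi2.symm
  choose xv hxv using hex
  let M : ZMod (p ^ 1) → ℤ := fun x => ∑ v, if xv v = x then (X.N k (X.st l) v : ℤ) * X.y v else 0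
  have hs1 : X.s k l = ∑ x : ZMod (p ^ 1), (M x : ℂ) * zt p ^ x.val := by
    have h1 := nform k l
    rw [hk, hl, mul_one, mul_one] at h1
    rw [h1]
    simp only [M]
    push_cast
    simp only [Finset.sum_mul]
    rw [Finset.sum_comm]
    refine Finset.sum_congr rfl fun v _ => ?_
    rw [Finset.sum_eq_single (xv v)]
    · rw [if_pos rfl, hxv v]
      ring
    · intro x _ hx
      rw [if_neg (fun h => hx h.symm)]
      simp
    · intro h; exact absurd (Finset.mem_univ _) h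
  let m : (ZMod (p ^ 1))ˣ → ℤ := fun u => M u - M 0
  have hs2 : X.s k l = ∑ u : (ZMod (p ^ 1))ˣ, (m u : ℂ) * zt p ^ ((u : ZMod (p ^ 1))).val := by
    have h1 := sum_units hp (fun x => ((M x : ℂ) - (M 0 : ℂ)) * zt p ^ x.val) (by simp)
    have h2 : ∑ x : ZMod (p ^ 1), ((M x : ℂ) - (M 0 : ℂ)) * zt p ^ x.val =
        ∑ x : ZMod (p ^ 1), (M x : ℂ) * zt p ^ x.val := by
      have : ∀ x : ZMod (p ^ 1), ((M x : ℂ) - (M 0 : ℂ)) * zt p ^ x.val =
          (M x : ℂ) * zt p ^ x.val - (M 0 : ℂ) * zt p ^ x.val := fun x => by ring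
      simp only [this]
      rw [Finset.sum_sub_distrib, ← Finset.mul_sum, sum_zt hp, mul_zero, sub_zero]
    rw [hs1, ← h2, h1]
    refine Finset.sum_congr rfl fun u _ => ?_
    simp only [m]
    push_cast
    ring
  have hF : ∀ c, X.s k (X.pi c l) = Fm p m c := by
    intro c
    obtain ⟨σ, hσ⟩ := hGA.exs c
    rw [← hGA.gal2 σ c hσ k l, hs2, map_sum]
    unfold Fm
    refine Finset.sum_congr rfl fun u _ => ?_
    rw [map_mul, map_pow, map_intCast, hσ _ hprim.pow_eq_one, zt_pow_mul]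
    rfl
  refine ⟨m, hF, ?_⟩
  intro c hc
  have h1 : X.s k (X.pi c l) = X.s k l := by
    rcases hc with hc | hc
    · rw [← X.pi_s, hc]
    · rw [hc]
  rw [hF c, hs2] at h1
  unfold Fm at h1
  -- reindex
  have h2 : ∑ x : (ZMod (p ^ 1))ˣ, (m x : ℂ) * zt p ^ ((c * x : (ZMod (p ^ 1))ˣ) : ZMod (p ^ 1)).val =
      ∑ x : (ZMod (p ^ 1))ˣ, (m (c⁻¹ * x) : ℂ) * zt p ^ ((x : (ZMod (p ^ 1))ˣ) : ZMod (p ^ 1)).val := by
    refine Fintype.sum_equiv (Equiv.mulLeft c) _ _ fun x => ?_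
    rw [Equiv.coe_mulLeft, inv_mul_cancel_left]
  rw [h2] at h1
  have h3 := lin_ind hp (fun x => m (c⁻¹ * x) - m x) (by
    push_cast
    simp only [sub_mul]
    rw [Finset.sum_sub_distrib, h1, sub_self])
  intro x
  have h4 := h3 (c * x)
  simp only [inv_mul_cancel_left] at h4
  omega

end Pool.Agent.Helper8.OC
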